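import Pool.Agent.Helper79.TL.Core

/-!
# TL-P1: `PSL(3, F)` is perfect and simple for every field `F`
-/

set_option autoImplicit false

open Matrix Matrix.SpecialLinearGroup
open scoped MatrixGroups commutatorElement LinearAlgebra.Projectivization

namespace Pool.Agent.Helper79.TL.P1

section

variable {F : Type} [Field F]

theorem diag2n_decompose {i j : Fin 3} (hij : i ≠ j) (a : F) (ha : a ≠ 0) :
    diag2n hij a ha = SpecialLinearGroup.transvection hij a *
      SpecialLinearGroup.transvection hij.symm (- a⁻¹) *
      SpecialLinearGroup.transvection hij a *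
      SpecialLinearGroup.transvection hij (-1) *
      SpecialLinearGroup.transvection hij.symm 1 *
      SpecialLinearGroup.transvection hij (-1) := by
  apply Subtype.ext
  ext k l
  fin_cases i <;> fin_cases j <;> first
    | exact absurd rfl hij
    | (fin_cases k <;> fin_cases l <;>
        simp [diag2n_coe, transvection_coe, Matrix.mul_apply, Fin.sum_univ_three,
          Matrix.one_apply, Matrix.single_apply, mul_inv_cancel₀ ha, inv_mul_cancel₀ ha])

theorem transvection_induction (P : SL(3, F) → Prop)
    (htransvec : ∀ (i j : Fin 3) (h : i ≠ j) c, P (SpecialLinearGroup.transvection h c))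
    (hmul : ∀ A B, P A → P B → P (A * B)) (A : SL(3, F)) : P A := by
  refine diagonal_transvection_induction' P _ (fun i j hij c hc ↦ ?_) htransvec hmul
  rw [diag2n_decompose hij c hc]
  refine hmul _ _ (hmul _ _ (hmul _ _ (hmul _ _ (hmul _ _ ?_ ?_) ?_) ?_) ?_) ?_
  all_goals exact htransvec _ _ _ _

theorem commutator_transvection {i j k : Fin 3} (hij : i ≠ j) (hjk : j ≠ k) (hik : i ≠ k)
    (a : F) : ⁅SpecialLinearGroup.transvection hij a, SpecialLinearGroup.transvection hjk 1⁆ =
      (SpecialLinearGroup.transvection hik a : SL(3, F)) := by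
  rw [commutatorElement_def, transvection_inv, transvection_inv]
  apply Subtype.ext
  simp [transvection_coe, mul_add, add_mul, single_mul_single_of_ne _ _ _ _ hij.symm,
    single_mul_single_of_ne _ _ _ _ hjk.symm, single_mul_single_of_ne _ _ _ _ hik.symm,
    ← single_neg]
  abel

theorem sl3_commutator : commutator SL(3, F) = ⊤ := by
  refine le_antisymm le_top (fun A _ ↦ transvection_induction _ (fun i k hik c ↦ ?_)
    (fun _ _ ↦ mul_mem) A)
  obtain ⟨j, hij, hjk⟩ : ∃ j : Fin 3, i ≠ j ∧ j ≠ k := by
    revert i k
    decide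
  rw [← commutator_transvection hij hjk hik c]
  exact Subgroup.commutator_mem_commutator (Subgroup.mem_top _) (Subgroup.mem_top _)

theorem iSup_lineStab_eq_top :
    (⨆ p : ℙ F (Fin 3 → F), lineStab p.submodule) = (⊤ : Subgroup SL(3, F)) := by
  refine le_antisymm le_top (fun A _ ↦ transvection_induction _ (fun i j hij c ↦ ?_)
    (fun _ _ ↦ mul_mem) A)
  have h1 := SL2Gen.transvection_mem_lineStab (ι := Fin 3) (F := F) hij c
  rw [← Projectivization.submodule_mk (K := F) _ (Pi.single_ne_zero_iff.2 one_ne_zero)] at h1
  exact (le_iSup (fun p : ℙ F (Fin 3 → F) => lineStab p.submodule) _) h1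

theorem iSup_iwasawaT_eq_top :
    iSup (PSL.iwasawaT (F := F) (ι := Fin 3)) = ⊤ := by
  have step1 : iSup (PSL.iwasawaT (F := F) (ι := Fin 3)) =
      Subgroup.map (QuotientGroup.mk' (Subgroup.center (Matrix.SpecialLinearGroup (Fin 3) F)))
        (⨆ p : ℙ F (Fin 3 → F),
          Matrix.SpecialLinearGroup.lineStab (F := F) (ι := Fin 3) p.submodule) := by
    rw [Subgroup.map_iSup]
  rw [step1, iSup_lineStab_eq_top]
  exact Subgroup.map_top_of_surjective _ (QuotientGroup.mk'_surjective _)

/-- the Iwasawa structure on `PSL(3, F)` -/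
noncomputable abbrev iwasawa : MulAction.IwasawaStructure PSL(3, F) (ℙ F (Fin 3 → F)) where
  T := PSL.iwasawaT
  is_comm p := by
    have hSL : IsMulCommutative (lineStab (F := F) (ι := Fin 3) p.submodule) := by
      rw [← Projectivization.mk_rep p, Projectivization.submodule_mk]
      exact lineStab_isMulCommutative_of_span p.rep p.rep_nonzero
    exact Subgroup.map_isMulCommutative _ _
  is_conj g p := by
    obtain ⟨g_SL, rfl⟩ := QuotientGroup.mk_surjective g
    rw [Matrix.ProjectiveSpecialLinearGroup.smul_proj_mk]
    change Subgroup.map _ _ = _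
    rw [PSL.smul_submodule, Matrix.SpecialLinearGroup.lineStab_smul,
      PSL.iwasawaT_map_conj]
  is_generator := iSup_iwasawaT_eq_top

end

/-- TL-P1 -/
theorem psl3_perfect (F : Type) [Field F] : commutator PSL(3, F) = ⊤ := by
  have : Group.IsPerfect SL(3, F) := ⟨sl3_commutator⟩
  have : Group.IsPerfect (Matrix.ProjectiveSpecialLinearGroup (Fin 3) F) := inferInstance
  exact this.commutator_eq_top

/-- TL-P1 -/
theorem psl3_simple (F : Type) [Field F] : IsSimpleGroup PSL(3, F) :=
  MulAction.IwasawaStructure.isSimpleGroup (psl3_perfect F) iwasawa inferInstance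

end Pool.Agent.Helper79.TL.P1
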